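import Mathlib
open Set Filter Topology

namespace Pool.Agent.Results.MP_f650bf_an.UniformlyLipschitzAffine

/-- Hahn-Banach in the form: a functional bounded by `c` on a subspace agrees there with a
functional of norm at most `c`. -/
lemma exists_ext {E : Type*} [NormedAddCommGroup E] [NormedSpace ℝ E] (G : Submodule ℝ E)
    (ψ : StrongDual ℝ E) {c : ℝ} (hc : 0 ≤ c) (h : ∀ g ∈ G, |ψ g| ≤ c * ‖g‖) :
    ∃ y : StrongDual ℝ E, (∀ g ∈ G, y g = ψ g) ∧ ‖y‖ ≤ c := by
  obtain ⟨y, hy1, hy2⟩ := exists_extension_norm_eq (𝕜 := ℝ) G (ψ.comp G.subtypeL)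
  refine ⟨y, fun g hg => by simpa using hy1 ⟨g, hg⟩, ?_⟩
  rw [hy2]
  apply ContinuousLinearMap.opNorm_le_bound _ hc
  intro g
  exact h g g.2

variable {X : Type*} [NormedAddCommGroup X] [NormedSpace ℝ X]

/-- A bounded closed convex set which is not weakly compact has a point of the bidual, outside the
canonical image of the space, that is weak-star approximated by points of the set. -/
lemma exists_bidual {C : Set X} (hbd : Bornology.IsBounded C) (hcl : IsClosed C)
    (hcv : Convex ℝ C) (hC : ¬ IsCompact (toWeakSpace ℝ X '' C)) :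
    ∃ ψ : StrongDual ℝ (StrongDual ℝ X),
      (∀ x : X, ψ ≠ NormedSpace.inclusionInDoubleDual ℝ X x) ∧
      ∀ (s : Finset (StrongDual ℝ X)) (ε : ℝ), 0 < ε → ∃ x ∈ C, ∀ g ∈ s, |g x - ψ g| < ε := by
  by_contra hcon
  apply hC
  have h1 : closure (toWeakSpace ℝ X '' C) = toWeakSpace ℝ X '' C := by
    rw [← hcv.toWeakSpace_closure ℝ, hcl.closure_eq]
  rw [← h1]
  apply NormedSpace.isCompact_closure_of_isBounded ℝ X
  · rw [Set.preimage_image_eq _ (toWeakSpace ℝ X).injective]
    exact hbd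
  · intro Ψ hΨ
    by_contra hr
    apply hcon
    refine ⟨WeakDual.toStrongDual Ψ, ?_, ?_⟩
    · intro x hx
      apply hr
      refine ⟨toWeakSpace ℝ X x, ?_⟩
      apply WeakDual.toStrongDual.injective
      rw [hx]
      rfl
    · intro s ε hε
      rw [mem_closure_iff_nhds] at hΨ
      have hU : {Φ : WeakDual ℝ (StrongDual ℝ X) | ∀ g ∈ s, |Φ g - Ψ g| < ε} ∈ 𝓝 Ψ := by
        have : {Φ : WeakDual ℝ (StrongDual ℝ X) | ∀ g ∈ s, |Φ g - Ψ g| < ε} =
            ⋂ g ∈ s, {Φ : WeakDual ℝ (StrongDual ℝ X) | |Φ g - Ψ g| < ε} := by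
          ext Φ; simp
        rw [this, Filter.biInter_finset_mem]
        intro g _
        have hc : Continuous fun Φ : WeakDual ℝ (StrongDual ℝ X) => |Φ g - Ψ g| :=
          ((WeakDual.eval_continuous g).sub continuous_const).abs
        apply (isOpen_lt hc continuous_const).mem_nhds
        simpa using hε
      obtain ⟨Φ, hΦU, hΦ⟩ := hΨ _ hU
      obtain ⟨w, ⟨x, hxC, rfl⟩, rfl⟩ := hΦ
      refine ⟨x, hxC, fun g hg => ?_⟩
      exact hΦU g hg

/-- A point outside the canonical image is at positive distance from it. -/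
lemma exists_dist [CompleteSpace X] {ψ : StrongDual ℝ (StrongDual ℝ X)}
    (hψ : ∀ x : X, ψ ≠ NormedSpace.inclusionInDoubleDual ℝ X x) :
    ∃ d : ℝ, 0 < d ∧ ∀ x : X, d ≤ ‖ψ - NormedSpace.inclusionInDoubleDual ℝ X x‖ := by
  have hcl : IsClosed (Set.range (NormedSpace.inclusionInDoubleDual ℝ X)) := by
    have : (Set.range (NormedSpace.inclusionInDoubleDual ℝ X)) =
        Set.range (NormedSpace.inclusionInDoubleDualLi ℝ (E := X)) := rfl
    rw [this]
    have h := (NormedSpace.inclusionInDoubleDualLi ℝ (E := X)).isometry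
    exact h.isUniformInducing.isComplete_range.isClosed
  have hn : ψ ∉ Set.range (NormedSpace.inclusionInDoubleDual ℝ X) := by
    rintro ⟨x, hx⟩
    exact hψ x hx.symm
  have hpos := (hcl.notMem_iff_infDist_pos (Set.range_nonempty _)).1 hn
  refine ⟨_, hpos, fun x => ?_⟩
  have := Metric.infDist_le_dist_of_mem (x := ψ)
    (Set.mem_range_self (f := NormedSpace.inclusionInDoubleDual ℝ X) x)
  have h2 : dist ψ (NormedSpace.inclusionInDoubleDual ℝ X x) =
      ‖ψ - NormedSpace.inclusionInDoubleDual ℝ X x‖ := by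
    exact dist_eq_norm ψ (NormedSpace.inclusionInDoubleDual ℝ X x)
  exact this.trans (le_of_eq h2)

/-- Helly-type lemma: functionals vanishing on a finite set, of norm at most one, on which the
bidual point takes a fixed positive value. -/
lemma exists_annihilator {ψ : StrongDual ℝ (StrongDual ℝ X)} {d : ℝ} (hd : 0 < d)
    (hψ : ∀ x : X, d ≤ ‖ψ - NormedSpace.inclusionInDoubleDual ℝ X x‖) (s : Finset X) :
    ∃ h : StrongDual ℝ X, ‖h‖ ≤ 1 ∧ (∀ x ∈ s, h x = 0) ∧ ψ h = d / 2 := by
  classical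
  -- the annihilator of `s`
  let G : Submodule ℝ (StrongDual ℝ X) :=
    ⨅ x : s, LinearMap.ker (NormedSpace.inclusionInDoubleDual ℝ X (x : X)).toLinearMap
  have hG : ∀ h : StrongDual ℝ X, h ∈ G ↔ ∀ x ∈ s, h x = 0 := by
    intro h
    simp [G, Submodule.mem_iInf]
  -- there is an element of `G` on which `ψ` is large
  have hex : ∃ h ∈ G, d / 2 * ‖h‖ < |ψ h| := by
    by_contra hcon
    push Not at hcon
    obtain ⟨y, hy1, hy2⟩ := exists_ext G ψ (by positivity : 0 ≤ d / 2) hcon
    have hker : G ≤ LinearMap.ker (ψ - y).toLinearMap := by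
      intro h hh
      have := hy1 h hh
      simp only [LinearMap.mem_ker, ContinuousLinearMap.coe_coe, sub_apply]
      rw [this]; simp
    have hspan := mem_span_of_iInf_ker_le_ker hker
    have hspan2 : ∃ x : X, (ψ - y) = NormedSpace.inclusionInDoubleDual ℝ X x := by
      have key : ∀ φ ∈ Submodule.span ℝ (Set.range fun x : s =>
          (NormedSpace.inclusionInDoubleDual ℝ X (x : X)).toLinearMap),
          ∃ x : X, φ = (NormedSpace.inclusionInDoubleDual ℝ X x).toLinearMap := by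
        intro φ hφ
        induction hφ using Submodule.span_induction with
        | mem z hz =>
          obtain ⟨x, rfl⟩ := hz
          exact ⟨x, rfl⟩
        | zero => exact ⟨0, by simp⟩
        | add a b _ _ ha hb =>
          obtain ⟨x, rfl⟩ := ha
          obtain ⟨y, rfl⟩ := hb
          exact ⟨x + y, by simp⟩
        | smul c a _ ha =>
          obtain ⟨x, rfl⟩ := ha
          exact ⟨c • x, by simp⟩
      obtain ⟨x, hx⟩ := key _ hspan
      exact ⟨x, ContinuousLinearMap.coe_injective hx⟩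
    obtain ⟨x, hx⟩ := hspan2
    have : y = ψ - NormedSpace.inclusionInDoubleDual ℝ X x := by
      rw [← hx]; abel
    have h3 := hψ x
    rw [← this] at h3
    linarith
  obtain ⟨h, hhG, hh⟩ := hex
  have hψh : ψ h ≠ 0 := by
    intro h0
    rw [h0] at hh
    simp at hh
    have : 0 ≤ d / 2 * ‖h‖ := by positivity
    linarith
  refine ⟨(d / 2 / ψ h) • h, ?_, ?_, ?_⟩
  · rw [norm_smul, Real.norm_eq_abs, abs_div, abs_of_pos (by positivity : (0 : ℝ) < d / 2),
      div_mul_eq_mul_div, div_le_one (abs_pos.2 hψh)]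
    exact hh.le
  · intro x hx
    have := (hG h).1 hhG x hx
    simp [this]
  · simp only [map_smul, smul_eq_mul]
    field_simp

/-- Finite norming sets for finite-dimensional spans. -/
lemma exists_norming (s : Finset X) :
    ∃ A : Finset (StrongDual ℝ X), (∀ g ∈ A, ‖g‖ ≤ 1) ∧
      ∀ y ∈ Submodule.span ℝ (s : Set X), ∃ g ∈ A, ‖y‖ ≤ 2 * |g y| := by
  classical
  set F := Submodule.span ℝ (s : Set X) with hF
  have : FiniteDimensional ℝ F := FiniteDimensional.span_finset ℝ s
  have hcomp : IsCompact (Metric.sphere (0 : F) 1) := isCompact_sphere _ _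
  choose g hg1 hg2 using fun y : F => exists_dual_vector'' ℝ (y : X)
  have hopen : ∀ y : F, IsOpen {z : F | (1 : ℝ) / 2 < g y (z : X)} := by
    intro y
    exact isOpen_lt continuous_const ((g y).continuous.comp continuous_subtype_val)
  have hcov : Metric.sphere (0 : F) 1 ⊆ ⋃ y : F, {z : F | (1 : ℝ) / 2 < g y (z : X)} := by
    intro z hz
    refine Set.mem_iUnion.2 ⟨z, ?_⟩
    have : ‖(z : X)‖ = 1 := by simpa using hz
    show (1 : ℝ) / 2 < g z (z : X)
    rw [hg2 z, this]
    norm_num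
  obtain ⟨t, ht⟩ := hcomp.elim_finite_subcover _ hopen hcov
  refine ⟨insert 0 (t.image g), ?_, ?_⟩
  · intro φ hφ
    rw [Finset.mem_insert, Finset.mem_image] at hφ
    rcases hφ with rfl | ⟨y, _, rfl⟩
    · simp
    · exact hg1 y
  · intro y hy
    by_cases hy0 : y = 0
    · exact ⟨0, Finset.mem_insert_self _ _, by simp [hy0]⟩
    · have hny : 0 < ‖y‖ := norm_pos_iff.2 hy0
      have hz : (‖y‖⁻¹ • (⟨y, hy⟩ : F)) ∈ Metric.sphere (0 : F) 1 := by
        simp [norm_smul, hny.ne']
      obtain ⟨w, hw⟩ := Set.mem_iUnion.1 (ht hz)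
      obtain ⟨hwt, hw⟩ := Set.mem_iUnion.1 hw
      refine ⟨g w, Finset.mem_insert_of_mem (Finset.mem_image_of_mem _ hwt), ?_⟩
      have hw' : (1 : ℝ) / 2 < ‖y‖⁻¹ * g w y := by
        simpa using hw
      have : ‖y‖ * (1 / 2) < g w y := by
        have := mul_lt_mul_of_pos_left hw' hny
        rwa [← mul_assoc, mul_inv_cancel₀ hny.ne', one_mul] at this
      have h2 := le_abs_self (g w y)
      linarith

/-- Strong recursion for sequences. -/
lemma exists_strong_seq {α : Type*} [Inhabited α] (P : ℕ → (ℕ → α) → α → Prop)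
    (h : ∀ n f, ∃ a, P n f a)
    (hP : ∀ n f g a, (∀ i < n, f i = g i) → P n f a → P n g a) :
    ∃ x : ℕ → α, ∀ n, P n x (x n) := by
  choose c hc using h
  let F : ℕ → (ℕ → α) := fun n =>
    Nat.rec (fun _ => default) (fun n f => Function.update f n (c n f)) n
  have hF : ∀ n, F (n + 1) = Function.update (F n) n (c n (F n)) := fun n => rfl
  let x : ℕ → α := fun n => F (n + 1) n
  have hx : ∀ n, x n = c n (F n) := fun n => by simp [x, hF]
  have hst : ∀ n i, i < n → F n i = x i := by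
    intro n
    induction n with
    | zero => intro i hi; omega
    | succ n ih =>
      intro i hi
      by_cases hin : i = n
      · subst hin; rfl
      · rw [hF, Function.update_of_ne hin]
        exact ih i (by omega)
  refine ⟨x, fun n => ?_⟩
  apply hP n (F n) x _ (hst n)
  rw [hx]
  exact hc n (F n)


/-- The inductive selection of the sequence. -/
lemma exists_selection {C : Set X} (hne : C.Nonempty) {ψ : StrongDual ℝ (StrongDual ℝ X)} {d : ℝ}
    (hd : 0 < d)
    (hψ : ∀ x : X, d ≤ ‖ψ - NormedSpace.inclusionInDoubleDual ℝ X x‖)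
    (happ : ∀ (s : Finset (StrongDual ℝ X)) (ε : ℝ), 0 < ε → ∃ x ∈ C, ∀ g ∈ s, |g x - ψ g| < ε)
    (ε : ℕ → ℝ) (hε : ∀ n, 0 < ε n) :
    ∃ (x : ℕ → X) (h : ℕ → StrongDual ℝ X) (A : ℕ → Finset (StrongDual ℝ X)),
      (∀ n, x n ∈ C) ∧ (∀ n, ‖h n‖ ≤ 1) ∧ (∀ n i, i < n → h n (x i) = 0) ∧
      (∀ m n, m ≤ n → |h m (x n) - d / 2| < ε n) ∧
      (∀ n, ∀ g ∈ A n, ‖g‖ ≤ 1) ∧
      (∀ n (t : ℕ → ℝ), ∃ g ∈ A n, ‖∑ i ∈ Finset.range n, t i • x i‖ ≤
        2 * |g (∑ i ∈ Finset.range n, t i • x i)|) ∧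
      (∀ m n, m ≤ n → ∀ g ∈ A m, |g (x n) - ψ g| < ε n) := by
  classical
  obtain ⟨x₀, hx₀⟩ := hne
  have : Inhabited X := ⟨x₀⟩
  choose H hH1 hH2 hH3 using fun s : Finset X => exists_annihilator hd hψ s
  choose A hA1 hA2 using fun s : Finset X => exists_norming s
  let P : ℕ → (ℕ → X) → X → Prop := fun n f a => a ∈ C ∧ ∀ m ≤ n,
    |H ((Finset.range m).image f) a - d / 2| < ε n ∧
      ∀ g ∈ A ((Finset.range m).image f), |g a - ψ g| < ε n
  have hex : ∀ n f, ∃ a, P n f a := by
    intro n f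
    obtain ⟨a, haC, ha⟩ := happ
      (((Finset.range (n + 1)).image fun m => H ((Finset.range m).image f)) ∪
        ((Finset.range (n + 1)).biUnion fun m => A ((Finset.range m).image f))) (ε n) (hε n)
    refine ⟨a, haC, fun m hm => ⟨?_, fun g hg => ?_⟩⟩
    · have := ha (H ((Finset.range m).image f)) (Finset.mem_union_left _
        (Finset.mem_image_of_mem (fun m => H ((Finset.range m).image f))
          (Finset.mem_range.2 (Nat.lt_succ_of_le hm))))
      rwa [hH3] at this
    · exact ha g (Finset.mem_union_right _ (Finset.mem_biUnion.2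
        ⟨m, Finset.mem_range.2 (Nat.lt_succ_of_le hm), hg⟩))
  have hloc : ∀ n f g a, (∀ i < n, f i = g i) → P n f a → P n g a := by
    intro n f g a hfg hP
    refine ⟨hP.1, fun m hm => ?_⟩
    have himg : (Finset.range m).image g = (Finset.range m).image f := by
      apply Finset.image_congr
      intro i hi
      have : i < m := by simpa using hi
      exact (hfg i (by omega)).symm
    rw [himg]
    exact hP.2 m hm
  obtain ⟨x, hx⟩ := exists_strong_seq P hex hloc
  refine ⟨x, fun n => H ((Finset.range n).image x), fun n => A ((Finset.range n).image x),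
    fun n => (hx n).1, fun n => hH1 _, ?_, ?_, fun n => hA1 _, ?_, ?_⟩
  · intro n i hi
    exact hH2 _ _ (Finset.mem_image_of_mem _ (Finset.mem_range.2 hi))
  · intro m n hmn
    exact ((hx n).2 m hmn).1
  · intro n t
    apply hA2
    apply Submodule.sum_mem
    intro i hi
    apply Submodule.smul_mem
    apply Submodule.subset_span
    exact Finset.mem_coe.2 (Finset.mem_image_of_mem _ hi)
  · intro m n hmn
    exact ((hx n).2 m hmn).2

/-- Tail sums are controlled by the norm. -/
lemma tail_bound {x : ℕ → X} {h : ℕ → StrongDual ℝ X} {δ : ℝ} (hδ : 0 < δ) {ε : ℕ → ℝ}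
    (hε0 : ∀ n, 0 < ε n) (hε : ∀ N, ∑ i ∈ Finset.range N, ε i ≤ δ / 4)
    (hh : ∀ n, ‖h n‖ ≤ 1) (hz : ∀ n i, i < n → h n (x i) = 0)
    (hap : ∀ m n, m ≤ n → |h m (x n) - δ| < ε n) (N : ℕ) (t : ℕ → ℝ) (n : ℕ) :
    |∑ i ∈ Finset.Ico n N, t i| ≤ 2 / δ * ‖∑ i ∈ Finset.range N, t i • x i‖ := by
  set z := ∑ i ∈ Finset.range N, t i • x i with hzdef
  obtain ⟨n₀, hn₀, hmax⟩ := Finset.exists_max_image (Finset.range (N + 1))
    (fun n => |∑ i ∈ Finset.Ico n N, t i|) ⟨0, by simp⟩
  set s := |∑ i ∈ Finset.Ico n₀ N, t i| with hs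
  have hs0 : 0 ≤ s := abs_nonneg _
  have hall : ∀ n, |∑ i ∈ Finset.Ico n N, t i| ≤ s := by
    intro n
    by_cases hn : n ≤ N
    · exact hmax n (Finset.mem_range.2 (Nat.lt_succ_of_le hn))
    · have : Finset.Ico n N = ∅ := Finset.Ico_eq_empty (by omega)
      simp [this, hs0]
  have hti : ∀ i < N, |t i| ≤ 2 * s := by
    intro i hi
    have h1 : t i = ∑ j ∈ Finset.Ico i N, t j - ∑ j ∈ Finset.Ico (i + 1) N, t j := by
      rw [Finset.sum_eq_sum_Ico_succ_bot hi]
      ring
    rw [h1]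
    calc _ ≤ |∑ j ∈ Finset.Ico i N, t j| + |∑ j ∈ Finset.Ico (i + 1) N, t j| := abs_sub _ _
      _ ≤ s + s := add_le_add (hall _) (hall _)
      _ = 2 * s := by ring
  have hn₀N : n₀ ≤ N := by
    rw [Finset.mem_range] at hn₀; omega
  have hval : h n₀ z = δ * (∑ i ∈ Finset.Ico n₀ N, t i) +
      ∑ i ∈ Finset.Ico n₀ N, t i * (h n₀ (x i) - δ) := by
    rw [hzdef, map_sum, Finset.range_eq_Ico, ← Finset.sum_Ico_consecutive _ (Nat.zero_le n₀) hn₀N]
    have h0 : ∑ i ∈ Finset.Ico 0 n₀, h n₀ (t i • x i) = 0 := by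
      apply Finset.sum_eq_zero
      intro i hi
      rw [Finset.mem_Ico] at hi
      rw [map_smul, hz n₀ i hi.2, smul_zero]
    rw [h0, zero_add, Finset.mul_sum, ← Finset.sum_add_distrib]
    apply Finset.sum_congr rfl
    intro i _
    rw [map_smul, smul_eq_mul]
    ring
  have herr : |∑ i ∈ Finset.Ico n₀ N, t i * (h n₀ (x i) - δ)| ≤ 2 * s * (δ / 4) := by
    calc _ ≤ ∑ i ∈ Finset.Ico n₀ N, |t i * (h n₀ (x i) - δ)| := Finset.abs_sum_le_sum_abs _ _
      _ ≤ ∑ i ∈ Finset.Ico n₀ N, 2 * s * ε i := by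
          apply Finset.sum_le_sum
          intro i hi
          rw [Finset.mem_Ico] at hi
          rw [abs_mul]
          exact mul_le_mul (hti i hi.2) (hap n₀ i hi.1).le (abs_nonneg _) (by positivity)
      _ = 2 * s * ∑ i ∈ Finset.Ico n₀ N, ε i := by rw [Finset.mul_sum]
      _ ≤ 2 * s * ∑ i ∈ Finset.range N, ε i := by
          apply mul_le_mul_of_nonneg_left _ (by positivity)
          apply Finset.sum_le_sum_of_subset_of_nonneg
          · intro i hi
            rw [Finset.mem_Ico] at hi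
            exact Finset.mem_range.2 hi.2
          · intro i _ _
            exact (hε0 i).le
      _ ≤ 2 * s * (δ / 4) := mul_le_mul_of_nonneg_left (hε N) (by positivity)
  have hnorm : |h n₀ z| ≤ ‖z‖ := by
    have := (h n₀).le_opNorm z
    have h2 : ‖h n₀‖ * ‖z‖ ≤ 1 * ‖z‖ := mul_le_mul_of_nonneg_right (hh _) (norm_nonneg _)
    rw [Real.norm_eq_abs] at this
    linarith
  have hmain : δ * s ≤ ‖z‖ + 2 * s * (δ / 4) := by
    have h1 : δ * ∑ i ∈ Finset.Ico n₀ N, t i =
        h n₀ z - ∑ i ∈ Finset.Ico n₀ N, t i * (h n₀ (x i) - δ) := by linarith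
    have h2 : δ * s = |δ * ∑ i ∈ Finset.Ico n₀ N, t i| := by
      rw [abs_mul, abs_of_pos hδ]
    rw [h2, h1]
    exact (abs_sub _ _).trans (add_le_add hnorm herr)
  have hfin : s ≤ 2 / δ * ‖z‖ := by
    rw [div_mul_eq_mul_div, le_div_iff₀ hδ]
    linarith
  exact (hall n).trans hfin

/-- Initial segments are controlled by the norm. -/
lemma head_bound {x : ℕ → X} {ψ : StrongDual ℝ (StrongDual ℝ X)}
    {h : ℕ → StrongDual ℝ X} {A : ℕ → Finset (StrongDual ℝ X)} {δ : ℝ}
    (hδ : 0 < δ) {ε : ℕ → ℝ}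
    (hε0 : ∀ n, 0 < ε n) (hε : ∀ N, ∑ i ∈ Finset.range N, ε i ≤ δ / 4)
    (hh : ∀ n, ‖h n‖ ≤ 1) (hz : ∀ n i, i < n → h n (x i) = 0)
    (hap : ∀ m n, m ≤ n → |h m (x n) - δ| < ε n)
    (hA1 : ∀ n, ∀ g ∈ A n, ‖g‖ ≤ 1)
    (hA2 : ∀ n (t : ℕ → ℝ), ∃ g ∈ A n, ‖∑ i ∈ Finset.range n, t i • x i‖ ≤
        2 * |g (∑ i ∈ Finset.range n, t i • x i)|)
    (hA3 : ∀ m n, m ≤ n → ∀ g ∈ A m, |g (x n) - ψ g| < ε n)
    (N : ℕ) (t : ℕ → ℝ) (n : ℕ) (hn : n ≤ N) :
    ‖∑ i ∈ Finset.range n, t i • x i‖ ≤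
      (4 + 4 / δ * ‖ψ‖) * ‖∑ i ∈ Finset.range N, t i • x i‖ := by
  set z := ∑ i ∈ Finset.range N, t i • x i with hzdef
  have htail := tail_bound hδ hε0 hε hh hz hap N t
  rw [← hzdef] at htail
  obtain ⟨g, hgA, hg⟩ := hA2 n t
  have hti : ∀ i < N, |t i| ≤ 4 / δ * ‖z‖ := by
    intro i hi
    have h1 : t i = ∑ j ∈ Finset.Ico i N, t j - ∑ j ∈ Finset.Ico (i + 1) N, t j := by
      rw [Finset.sum_eq_sum_Ico_succ_bot hi]
      ring
    rw [h1]
    calc _ ≤ |∑ j ∈ Finset.Ico i N, t j| + |∑ j ∈ Finset.Ico (i + 1) N, t j| := abs_sub _ _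
      _ ≤ 2 / δ * ‖z‖ + 2 / δ * ‖z‖ := add_le_add (htail _) (htail _)
      _ = 4 / δ * ‖z‖ := by ring
  have hval : g (∑ i ∈ Finset.range n, t i • x i) = g z - ψ g * (∑ i ∈ Finset.Ico n N, t i) -
      ∑ i ∈ Finset.Ico n N, t i * (g (x i) - ψ g) := by
    have h1 : z = ∑ i ∈ Finset.range n, t i • x i + ∑ i ∈ Finset.Ico n N, t i • x i := by
      rw [hzdef, Finset.range_eq_Ico, Finset.range_eq_Ico,
        Finset.sum_Ico_consecutive _ (Nat.zero_le n) hn]
    rw [h1, map_add, map_sum g _ (Finset.Ico n N)]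
    have h2 : ∑ i ∈ Finset.Ico n N, g (t i • x i) = ψ g * (∑ i ∈ Finset.Ico n N, t i) +
        ∑ i ∈ Finset.Ico n N, t i * (g (x i) - ψ g) := by
      rw [Finset.mul_sum, ← Finset.sum_add_distrib]
      apply Finset.sum_congr rfl
      intro i _
      rw [map_smul, smul_eq_mul]
      ring
    rw [h2]
    ring
  have hgn : ‖g‖ ≤ 1 := hA1 n g hgA
  have hgz : |g z| ≤ ‖z‖ := by
    have := g.le_opNorm z
    have h2 : ‖g‖ * ‖z‖ ≤ 1 * ‖z‖ := mul_le_mul_of_nonneg_right hgn (norm_nonneg _)
    rw [Real.norm_eq_abs] at this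
    linarith
  have hψg : |ψ g| ≤ ‖ψ‖ := by
    have := ψ.le_opNorm g
    have h2 : ‖ψ‖ * ‖g‖ ≤ ‖ψ‖ * 1 := mul_le_mul_of_nonneg_left hgn (norm_nonneg ψ)
    rw [Real.norm_eq_abs] at this
    linarith
  have herr : |∑ i ∈ Finset.Ico n N, t i * (g (x i) - ψ g)| ≤ ‖z‖ := by
    calc _ ≤ ∑ i ∈ Finset.Ico n N, |t i * (g (x i) - ψ g)| := Finset.abs_sum_le_sum_abs _ _
      _ ≤ ∑ i ∈ Finset.Ico n N, 4 / δ * ‖z‖ * ε i := by
          apply Finset.sum_le_sum
          intro i hi
          rw [Finset.mem_Ico] at hi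
          rw [abs_mul]
          exact mul_le_mul (hti i hi.2) (hA3 n i hi.1 g hgA).le (abs_nonneg _) (by positivity)
      _ = 4 / δ * ‖z‖ * ∑ i ∈ Finset.Ico n N, ε i := by rw [Finset.mul_sum]
      _ ≤ 4 / δ * ‖z‖ * ∑ i ∈ Finset.range N, ε i := by
          apply mul_le_mul_of_nonneg_left _ (by positivity)
          apply Finset.sum_le_sum_of_subset_of_nonneg
          · intro i hi
            rw [Finset.mem_Ico] at hi
            exact Finset.mem_range.2 hi.2
          · intro i _ _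
            exact (hε0 i).le
      _ ≤ 4 / δ * ‖z‖ * (δ / 4) := mul_le_mul_of_nonneg_left (hε N) (by positivity)
      _ = ‖z‖ := by field_simp
  have hmid : |ψ g * (∑ i ∈ Finset.Ico n N, t i)| ≤ ‖ψ‖ * (2 / δ * ‖z‖) := by
    rw [abs_mul]
    exact mul_le_mul hψg (htail n) (abs_nonneg _) (norm_nonneg ψ)
  have hfin : |g (∑ i ∈ Finset.range n, t i • x i)| ≤ ‖z‖ + ‖ψ‖ * (2 / δ * ‖z‖) + ‖z‖ := by
    rw [hval]
    calc _ ≤ |g z - ψ g * (∑ i ∈ Finset.Ico n N, t i)| +
          |∑ i ∈ Finset.Ico n N, t i * (g (x i) - ψ g)| := abs_sub _ _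
      _ ≤ (|g z| + |ψ g * (∑ i ∈ Finset.Ico n N, t i)|) + ‖z‖ :=
          add_le_add (abs_sub _ _) herr
      _ ≤ _ := by linarith
  calc _ ≤ 2 * (‖z‖ + ‖ψ‖ * (2 / δ * ‖z‖) + ‖z‖) := hg.trans (by linarith)
    _ = _ := by ring

/-- Moment-type extension: prescribed values on a sequence. -/
lemma exists_functional {x : ℕ → X} {c : ℕ → ℝ} {B : ℝ} (hB : 0 ≤ B)
    (h : ∀ (N : ℕ) (t : ℕ → ℝ),
      |∑ i ∈ Finset.range N, t i * c i| ≤ B * ‖∑ i ∈ Finset.range N, t i • x i‖) :
    ∃ S : StrongDual ℝ X, (∀ i, S (x i) = c i) ∧ ‖S‖ ≤ B := by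
  let L : (ℕ →₀ ℝ) →ₗ[ℝ] X := Finsupp.linearCombination ℝ x
  let cc : (ℕ →₀ ℝ) →ₗ[ℝ] ℝ := Finsupp.linearCombination ℝ c
  have hbound : ∀ t, |cc t| ≤ B * ‖L t‖ := by
    intro t
    obtain ⟨N, hN⟩ : ∃ N, t.support ⊆ Finset.range N := t.support.exists_nat_subset_range
    have h1 : cc t = ∑ i ∈ Finset.range N, t i * c i := by
      simp only [cc, Finsupp.linearCombination_apply, smul_eq_mul]
      exact Finsupp.sum_of_support_subset _ hN _ (by simp)
    have h2 : L t = ∑ i ∈ Finset.range N, t i • x i := by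
      simp only [L, Finsupp.linearCombination_apply]
      exact Finsupp.sum_of_support_subset _ hN _ (by simp)
    rw [h1, h2]
    exact h N t
  obtain ⟨s, hs⟩ := L.rangeRestrict.exists_rightInverse_of_surjective
    (LinearMap.range_rangeRestrict L)
  have hLs : ∀ z : LinearMap.range L, L (s z) = z := by
    intro z
    have := congrArg (fun f => ((f z : LinearMap.range L) : X)) hs
    simpa using this
  let f : LinearMap.range L →L[ℝ] ℝ := (cc.comp s).mkContinuous B (by
    intro z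
    have := hbound (s z)
    rw [hLs z] at this
    simpa using this)
  obtain ⟨S, hS1, hS2⟩ := exists_extension_norm_eq (𝕜 := ℝ) _ f
  refine ⟨S, fun i => ?_, ?_⟩
  · have hmem : x i ∈ LinearMap.range L := ⟨Finsupp.single i 1, by simp [L]⟩
    have h1 := hS1 ⟨x i, hmem⟩
    have h2 : f ⟨x i, hmem⟩ = cc (s ⟨x i, hmem⟩) := rfl
    have h3 := hbound (s ⟨x i, hmem⟩ - Finsupp.single i 1)
    rw [map_sub, map_sub, hLs] at h3
    have h4 : L (Finsupp.single i 1) = x i := by simp [L]
    have h5 : cc (Finsupp.single i 1) = c i := by simp [cc]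
    rw [h4, h5] at h3
    simp only [sub_self, norm_zero, mul_zero] at h3
    have h6 := abs_nonpos_iff.1 h3
    simp only at h1
    rw [h1, h2]
    linarith
  · rw [hS2]
    exact LinearMap.mkContinuous_norm_le _ hB _

/-- Abel summation bound. -/
lemma norm_sum_antitone_le {c : ℕ → ℝ} (hc : Antitone c) (hc0 : ∀ k, 0 ≤ c k) (hc1 : c 0 ≤ 1)
    {a : ℕ → X} {B : ℝ} (hB : ∀ n, ‖∑ k ∈ Finset.range n, a k‖ ≤ B) (N : ℕ) :
    ‖∑ k ∈ Finset.range N, c k • a k‖ ≤ B := by
  have hB0 : 0 ≤ B := by simpa using hB 0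
  rcases Nat.eq_zero_or_pos N with rfl | hN
  · simpa using hB0
  obtain ⟨m, rfl⟩ : ∃ m, N = m + 1 := ⟨N - 1, by omega⟩
  rw [Finset.sum_range_by_parts]
  simp only [Nat.add_sub_cancel]
  have h1 : ‖c m • ∑ i ∈ Finset.range (m + 1), a i‖ ≤ c m * B := by
    rw [norm_smul, Real.norm_eq_abs, abs_of_nonneg (hc0 m)]
    exact mul_le_mul_of_nonneg_left (hB _) (hc0 m)
  have h2 : ‖∑ i ∈ Finset.range m, (c (i + 1) - c i) • ∑ j ∈ Finset.range (i + 1), a j‖ ≤
      (c 0 - c m) * B := by
    calc _ ≤ ∑ i ∈ Finset.range m, ‖(c (i + 1) - c i) • ∑ j ∈ Finset.range (i + 1), a j‖ :=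
          norm_sum_le _ _
      _ ≤ ∑ i ∈ Finset.range m, (c i - c (i + 1)) * B := by
          apply Finset.sum_le_sum
          intro i _
          have h3 : c (i + 1) ≤ c i := hc (Nat.le_succ i)
          rw [norm_smul, Real.norm_eq_abs, abs_of_nonpos (by linarith), neg_sub]
          exact mul_le_mul_of_nonneg_left (hB _) (by linarith)
      _ = (c 0 - c m) * B := by
          rw [← Finset.sum_mul, Finset.sum_range_sub']
  calc _ ≤ c m * B + (c 0 - c m) * B := (norm_sub_le _ _).trans (add_le_add h1 h2)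
    _ = c 0 * B := by ring
    _ ≤ 1 * B := mul_le_mul_of_nonneg_right hc1 hB0
    _ = B := one_mul B

/-- Convex combinations with decreasing weights. -/
lemma mem_convexHull_of_antitone (x : ℕ → X) (m : ℕ) : ∀ (n : ℕ) (β : ℕ → ℝ), Antitone β →
    (∀ k, 0 ≤ β k) → β 0 ≤ 1 →
    x n + ∑ k ∈ Finset.range m, β k • (x (n + k + 1) - x (n + k)) ∈
      convexHull ℝ (Set.range x) := by
  induction m with
  | zero =>
    intro n β _ _ _
    simpa using subset_convexHull ℝ (Set.range x) (Set.mem_range_self n)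
  | succ m ih =>
    intro n β hβ h0 h1
    rw [Finset.sum_range_succ']
    rcases (h0 0).eq_or_lt with hz | hpos
    · have hall : ∀ k, β k = 0 := fun k => le_antisymm (hz ▸ hβ (Nat.zero_le k)) (h0 k)
      simp only [hall, zero_smul, Finset.sum_const_zero, add_zero]
      exact subset_convexHull ℝ (Set.range x) (Set.mem_range_self n)
    · have hw := ih (n + 1) (fun k => β (k + 1) / β 0)
        (fun a b hab => div_le_div_of_nonneg_right (hβ (by omega)) hpos.le)
        (fun k => div_nonneg (h0 _) hpos.le)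
        ((div_le_one hpos).2 (hβ (Nat.zero_le _)))
      have hx : x n ∈ convexHull ℝ (Set.range x) :=
        subset_convexHull ℝ (Set.range x) (Set.mem_range_self n)
      have hcomb := (convex_convexHull ℝ (Set.range x)) hx hw (sub_nonneg.2 h1) (h0 0) (by ring)
      convert hcomb using 1
      rw [smul_add, Finset.smul_sum]
      have : ∀ k, β 0 • ((β (k + 1) / β 0) • (x (n + 1 + k + 1) - x (n + 1 + k))) =
          β (k + 1) • (x (n + (k + 1) + 1) - x (n + (k + 1))) := by
        intro k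
        rw [smul_smul, mul_div_cancel₀ _ hpos.ne']
        congr 3 <;> ring_nf
      simp only [this, add_zero]
      rw [sub_smul, smul_sub]
      simp only [one_smul]
      abel

/-- The operator `z ↦ z + ∑ αₖ Sₖ(z) (x_{k+1} - x_k)`. -/
theorem core [CompleteSpace X] {x : ℕ → X} {S : ℕ → StrongDual ℝ X} {M B D : ℝ}
    (hM : ∀ n, ‖x n‖ ≤ M) (hS : ∀ k i, S k (x i) = if i ≤ k then 1 else 0)
    (hD : ∀ k, ‖S k‖ ≤ D)
    (hA : ∀ k, ∀ z ∈ Submodule.span ℝ (Set.range x),
      ‖∑ j ∈ Finset.range k, S j z • (x (j + 1) - x j)‖ ≤ B * ‖z‖) :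
    ∃ f : X →L[ℝ] X, MapsTo f (closure (convexHull ℝ (Set.range x)))
        (closure (convexHull ℝ (Set.range x))) ∧
      (∀ p : ℕ, ∀ u ∈ closure (convexHull ℝ (Set.range x)),
        ∀ v ∈ closure (convexHull ℝ (Set.range x)),
          ‖f^[p] u - f^[p] v‖ ≤ (1 + B) * ‖u - v‖) ∧
      ∀ u ∈ closure (convexHull ℝ (Set.range x)), f u ≠ u := by
  have hM0 : 0 ≤ M := (norm_nonneg _).trans (hM 0)
  have hD0 : 0 ≤ D := (norm_nonneg _).trans (hD 0)
  let α : ℕ → ℝ := fun k => (1 / 2 : ℝ) ^ (k + 1)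
  have hα0 : ∀ k, 0 < α k := fun k => by positivity
  have hα1 : ∀ k, α k ≤ 1 := fun k => pow_le_one₀ (by norm_num) (by norm_num)
  have hαanti : Antitone α := fun a b hab =>
    pow_le_pow_of_le_one (by norm_num) (by norm_num) (by omega)
  have hαsum : Summable α := by
    have := summable_geometric_of_lt_one (by norm_num : (0 : ℝ) ≤ 1 / 2) (by norm_num)
    exact (summable_nat_add_iff 1).2 this
  let d : ℕ → X := fun k => x (k + 1) - x k
  have hd : ∀ k, ‖d k‖ ≤ 2 * M := fun k =>
    (norm_sub_le _ _).trans (by linarith [hM (k + 1), hM k])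
  let R : ℕ → X →L[ℝ] X := fun k => α k • (S k).smulRight (d k)
  have hR : ∀ k, ‖R k‖ ≤ α k * (D * (2 * M)) := by
    intro k
    simp only [R]
    rw [norm_smul, Real.norm_eq_abs, abs_of_pos (hα0 k)]
    apply mul_le_mul_of_nonneg_left _ (hα0 k).le
    rw [ContinuousLinearMap.norm_smulRight_apply]
    exact mul_le_mul (hD k) (hd k) (norm_nonneg _) hD0
  have hRsum : Summable R := Summable.of_norm_bounded (hαsum.mul_right _) hR
  let f : X →L[ℝ] X := ContinuousLinearMap.id ℝ X + ∑' k, R k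
  -- the defining series
  have hf : ∀ z, HasSum (fun k => α k • S k z • d k) (f z - z) := by
    intro z
    have h1 := hRsum.hasSum
    have h2 := h1.mapL (ContinuousLinearMap.apply ℝ X z)
    simpa [f, R] using h2
  have hSd : ∀ j k, S j (d k) = if k = j then -1 else 0 := by
    intro j k
    simp only [d, map_sub, hS]
    by_cases h1 : k = j
    · subst h1; simp
    · rcases lt_or_gt_of_ne h1 with h2 | h2
      · simp [h1, h2.le, Nat.succ_le_of_lt h2]
      · have h3 : ¬ k + 1 ≤ j := by omega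
        have h4 : ¬ k ≤ j := by omega
        simp [h1, h3, h4]
  have hSf : ∀ j z, S j (f z) = (1 - α j) * S j z := by
    intro j z
    have h1 := (hf z).mapL (S j)
    have h2 : HasSum (fun k => S j (α k • S k z • d k)) (- (α j * S j z)) := by
      have : ∀ k, S j (α k • S k z • d k) = if k = j then - (α j * S j z) else 0 := by
        intro k
        simp only [map_smul, hSd, smul_eq_mul]
        by_cases h : k = j
        · subst h; simp
        · simp [h]
      simp only [this]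
      exact hasSum_ite_eq j _
    have h3 := h1.unique h2
    rw [map_sub] at h3
    linarith
  have hSfp : ∀ j z (p : ℕ), S j (f^[p] z) = (1 - α j) ^ p * S j z := by
    intro j z p
    induction p with
    | zero => simp
    | succ p ih =>
      rw [Function.iterate_succ_apply', hSf, ih, pow_succ]
      ring
  have hfp : ∀ (p : ℕ) z,
      HasSum (fun k => (1 - (1 - α k) ^ p) • (S k z • d k)) (f^[p] z - z) := by
    intro p z
    induction p with
    | zero => simp
    | succ p ih =>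
      have h1 := (hf (f^[p] z)).add ih
      rw [Function.iterate_succ_apply']
      convert h1 using 1
      · funext k
        rw [hSfp, smul_smul, smul_smul, smul_smul, ← add_smul]
        congr 1
        rw [pow_succ]
        ring
      · abel
  -- bound on the closed span
  have hbd : ∀ (p : ℕ), ∀ z ∈ Submodule.span ℝ (Set.range x), ‖f^[p] z - z‖ ≤ B * ‖z‖ := by
    intro p z hz
    have htend := (hfp p z).tendsto_sum_nat
    refine le_of_tendsto htend.norm (Filter.Eventually.of_forall fun N => ?_)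
    apply norm_sum_antitone_le _ _ _ (fun n => hA n z hz)
    · intro a b hab
      have h1 : (1 - α a) ^ p ≤ (1 - α b) ^ p :=
        pow_le_pow_left₀ (by linarith [hα1 a]) (by linarith [hαanti hab]) p
      simp only
      linarith
    · intro k
      have : (1 - α k) ^ p ≤ 1 := pow_le_one₀ (by linarith [hα1 k]) (by linarith [hα0 k])
      linarith
    · have : 0 ≤ (1 - α 0) ^ p := pow_nonneg (by linarith [hα1 0]) p
      linarith
  have hcont : ∀ p : ℕ, Continuous (f^[p]) := fun p => f.continuous.iterate p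
  have hbd' : ∀ (p : ℕ), ∀ z ∈ closure (Submodule.span ℝ (Set.range x) : Set X),
      ‖f^[p] z - z‖ ≤ B * ‖z‖ := by
    intro p z hz
    have hcl : IsClosed {z : X | ‖f^[p] z - z‖ ≤ B * ‖z‖} :=
      isClosed_le ((hcont p).sub continuous_id).norm (continuous_const.mul continuous_norm)
    exact closure_minimal (fun z hz => hbd p z hz) hcl hz
  set K := closure (convexHull ℝ (Set.range x)) with hK
  have hKspan : ∀ u ∈ K, ∀ v ∈ K, u - v ∈ closure (Submodule.span ℝ (Set.range x) : Set X) := by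
    have h1 : K ⊆ closure (Submodule.span ℝ (Set.range x) : Set X) := by
      apply closure_mono
      exact convexHull_min Submodule.subset_span (Submodule.convex _)
    intro u hu v hv
    have hu' : u ∈ (Submodule.span ℝ (Set.range x)).topologicalClosure := h1 hu
    have hv' : v ∈ (Submodule.span ℝ (Set.range x)).topologicalClosure := h1 hv
    exact Submodule.sub_mem _ hu' hv'
  refine ⟨f, ?_, ?_, ?_⟩
  · -- invariance
    have hconv : Convex ℝ (f ⁻¹' K) := (convex_convexHull ℝ (Set.range x)).closure.linear_preimage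
      f.toLinearMap
    have hclosed : IsClosed (f ⁻¹' K) := isClosed_closure.preimage f.continuous
    have hrange : Set.range x ⊆ f ⁻¹' K := by
      rintro _ ⟨n, rfl⟩
      show f (x n) ∈ K
      have hlim : Tendsto (fun N => x n + ∑ k ∈ Finset.range N, α k • S k (x n) • d k) atTop
          (𝓝 (f (x n))) := by
        have := (hf (x n)).tendsto_sum_nat.const_add (x n)
        simpa using this
      have hlim2 := hlim.comp (tendsto_add_atTop_nat n)
      refine mem_closure_of_tendsto hlim2 (Filter.Eventually.of_forall fun N => ?_)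
      have hw := mem_convexHull_of_antitone x N n (fun k => α (n + k))
        (fun a b hab => hαanti (by omega)) (fun k => (hα0 _).le) (hα1 _)
      have heq : x n + ∑ k ∈ Finset.range (N + n), α k • S k (x n) • d k =
          x n + ∑ k ∈ Finset.range N, α (n + k) • (x (n + k + 1) - x (n + k)) := by
        congr 1
        rw [add_comm N n, Finset.sum_range_add]
        have h0 : ∑ k ∈ Finset.range n, α k • S k (x n) • d k = 0 := by
          apply Finset.sum_eq_zero
          intro k hk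
          have : ¬ n ≤ k := by
            rw [Finset.mem_range] at hk; omega
          simp [hS, this]
        rw [h0, zero_add]
        apply Finset.sum_congr rfl
        intro k _
        simp [hS, d]
      show x n + ∑ k ∈ Finset.range (N + n), α k • S k (x n) • d k ∈ _
      rw [heq]
      exact hw
    exact closure_minimal (convexHull_min hrange hconv) hclosed
  · intro p u hu v hv
    have h1 : f^[p] u - f^[p] v = f^[p] (u - v) := by
      have : ∀ q : ℕ, f^[q] u - f^[q] v = f^[q] (u - v) := by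
        intro q
        induction q with
        | zero => simp
        | succ q ih =>
          rw [Function.iterate_succ_apply', Function.iterate_succ_apply',
            Function.iterate_succ_apply', ← ih, map_sub]
      exact this p
    rw [h1]
    have h2 := hbd' p (u - v) (hKspan u hu v hv)
    calc ‖f^[p] (u - v)‖ = ‖(f^[p] (u - v) - (u - v)) + (u - v)‖ := by congr 1; abel
      _ ≤ ‖f^[p] (u - v) - (u - v)‖ + ‖u - v‖ := norm_add_le _ _
      _ ≤ B * ‖u - v‖ + ‖u - v‖ := by linarith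
      _ = (1 + B) * ‖u - v‖ := by ring
  · intro u hu hfu
    have hS0 : ∀ k, S k u = 0 := by
      intro k
      have := hSf k u
      rw [hfu] at this
      have h2 : α k * S k u = 0 := by linarith
      rcases mul_eq_zero.1 h2 with h | h
      · exact absurd h (hα0 k).ne'
      · exact h
    -- approximate `u` by a convex combination
    rw [hK, Metric.mem_closure_iff] at hu
    obtain ⟨w, hw, hdist⟩ := hu (1 / (2 * (D + 1))) (by positivity)
    have hwS : ∃ k₀, ∀ k ≥ k₀, S k w = 1 := by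
      have hsub : convexHull ℝ (Set.range x) ⊆ {w | ∃ k₀, ∀ k ≥ k₀, S k w = 1} := by
        apply convexHull_min
        · rintro _ ⟨i, rfl⟩
          exact ⟨i, fun k hk => by simp [hS, hk]⟩
        · rintro a ⟨ka, ha⟩ b ⟨kb, hb⟩ s t hs ht hst
          refine ⟨max ka kb, fun k hk => ?_⟩
          simp only [map_add, map_smul, smul_eq_mul]
          rw [ha k ((le_max_left _ _).trans hk), hb k ((le_max_right _ _).trans hk)]
          linarith
      exact hsub hw
    obtain ⟨k, hk⟩ := hwS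
    have h1 := hk k le_rfl
    have h2 : |S k (u - w)| ≤ D * ‖u - w‖ :=
      ((S k).le_opNorm _).trans (mul_le_mul_of_nonneg_right (hD k) (norm_nonneg _))
    rw [map_sub, hS0, h1] at h2
    rw [dist_eq_norm] at hdist
    have h3 : D * ‖u - w‖ ≤ D * (1 / (2 * (D + 1))) :=
      mul_le_mul_of_nonneg_left hdist.le hD0
    have h4 : D * (1 / (2 * (D + 1))) < 1 := by
      rw [mul_one_div, div_lt_one (by positivity)]
      linarith
    norm_num at h2
    linarith

/-- The selected sequence has all the properties needed by `core`. -/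
theorem exists_wide_seq [CompleteSpace X] {C : Set X} (hne : C.Nonempty)
    (hbd : Bornology.IsBounded C) (hcl : IsClosed C) (hcv : Convex ℝ C)
    (hC : ¬ IsCompact (toWeakSpace ℝ X '' C)) :
    ∃ (x : ℕ → X) (S : ℕ → StrongDual ℝ X) (M B D : ℝ), (∀ n, x n ∈ C) ∧ 0 ≤ B ∧
      (∀ n, ‖x n‖ ≤ M) ∧ (∀ k i, S k (x i) = if i ≤ k then 1 else 0) ∧ (∀ k, ‖S k‖ ≤ D) ∧
      (∀ k, ∀ z ∈ Submodule.span ℝ (Set.range x),
        ‖∑ j ∈ Finset.range k, S j z • (x (j + 1) - x j)‖ ≤ B * ‖z‖) := by
  obtain ⟨ψ, hψ1, happ⟩ := exists_bidual hbd hcl hcv hC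
  obtain ⟨d, hd, hψ⟩ := exists_dist hψ1
  have hδ : 0 < d / 2 := by positivity
  set δ := d / 2 with hδdef
  let ε : ℕ → ℝ := fun n => δ / 8 * (1 / 2) ^ n
  have hε0 : ∀ n, 0 < ε n := fun n => by positivity
  have hε : ∀ N, ∑ i ∈ Finset.range N, ε i ≤ δ / 4 := by
    intro N
    have h1 : ∑ i ∈ Finset.range N, ((1 : ℝ) / 2) ^ i ≤ 2 := by
      have := geom_sum_eq (by norm_num : (1 : ℝ) / 2 ≠ 1) N
      rw [this]
      have h2 : (0 : ℝ) ≤ (1 / 2) ^ N := by positivity
      rw [div_le_iff_of_neg (by norm_num)]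
      linarith
    simp only [ε]
    rw [← Finset.mul_sum]
    calc δ / 8 * ∑ i ∈ Finset.range N, ((1 : ℝ) / 2) ^ i ≤ δ / 8 * 2 :=
          mul_le_mul_of_nonneg_left h1 (by positivity)
      _ = δ / 4 := by ring
  obtain ⟨x, h, A, hxC, hh, hz, hap, hA1, hA2, hA3⟩ :=
    exists_selection hne hd hψ happ ε hε0
  obtain ⟨M, hM⟩ := hbd.exists_norm_le
  have htail := fun N t n => tail_bound hδ hε0 hε hh hz hap N t n
  have hhead := fun N t n hn => head_bound hδ hε0 hε hh hz hap hA1 hA2 hA3 N t n hn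
  -- initial sums of coefficients
  have hinit : ∀ (N : ℕ) (t : ℕ → ℝ) (k : ℕ), k ≤ N →
      |∑ i ∈ Finset.range k, t i| ≤ 4 / δ * ‖∑ i ∈ Finset.range N, t i • x i‖ := by
    intro N t k hk
    have h1 : ∑ i ∈ Finset.range k, t i = ∑ i ∈ Finset.Ico 0 N, t i - ∑ i ∈ Finset.Ico k N, t i := by
      rw [← Finset.sum_Ico_consecutive _ (Nat.zero_le k) hk, Finset.range_eq_Ico]
      ring
    rw [h1]
    calc _ ≤ |∑ i ∈ Finset.Ico 0 N, t i| + |∑ i ∈ Finset.Ico k N, t i| := abs_sub _ _
      _ ≤ 2 / δ * ‖∑ i ∈ Finset.range N, t i • x i‖ +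
          2 / δ * ‖∑ i ∈ Finset.range N, t i • x i‖ := add_le_add (htail N t 0) (htail N t k)
      _ = _ := by ring
  have hsplit : ∀ (N : ℕ) (t : ℕ → ℝ) (k : ℕ), k < N →
      ∑ i ∈ Finset.range N, t i * (if i ≤ k then (1 : ℝ) else 0) =
        ∑ i ∈ Finset.range (k + 1), t i := by
    intro N t k hk
    rw [Finset.range_eq_Ico, ← Finset.sum_Ico_consecutive _ (Nat.zero_le (k + 1)) hk]
    have h0 : ∑ i ∈ Finset.Ico (k + 1) N, t i * (if i ≤ k then (1 : ℝ) else 0) = 0 := by
      apply Finset.sum_eq_zero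
      intro i hi
      rw [Finset.mem_Ico] at hi
      rw [if_neg (by omega), mul_zero]
    rw [h0, add_zero, Finset.range_eq_Ico]
    apply Finset.sum_congr rfl
    intro i hi
    rw [Finset.mem_Ico] at hi
    rw [if_pos (by omega), mul_one]
  have hSex : ∀ k : ℕ, ∃ S : StrongDual ℝ X, (∀ i, S (x i) = if i ≤ k then 1 else 0) ∧
      ‖S‖ ≤ 4 / δ := by
    intro k
    apply exists_functional (by positivity)
    intro N t
    rcases lt_or_ge k N with hk | hk
    · rw [hsplit N t k hk]
      exact hinit N t (k + 1) hk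
    · have : ∑ i ∈ Finset.range N, t i * (if i ≤ k then (1 : ℝ) else 0) =
          ∑ i ∈ Finset.range N, t i := by
        apply Finset.sum_congr rfl
        intro i hi
        rw [Finset.mem_range] at hi
        rw [if_pos (by omega), mul_one]
      rw [this]
      exact hinit N t N le_rfl
  choose S hS1 hS2 using hSex
  refine ⟨x, S, M, 4 / δ * M + (4 + 4 / δ * ‖ψ‖), 4 / δ, hxC, ?_, fun n => hM _ (hxC n),
    fun k i => hS1 k i, hS2, ?_⟩
  · have hM0 : 0 ≤ M := (norm_nonneg _).trans (hM _ (hxC 0))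
    have hψ0 : 0 ≤ ‖ψ‖ := norm_nonneg ψ
    positivity
  intro k z hzspan
  have hM0 : 0 ≤ M := (norm_nonneg _).trans (hM _ (hxC 0))
  -- write `z` as a finite sum of length at least `k`
  obtain ⟨N, t, hkN, rfl⟩ : ∃ (N : ℕ) (t : ℕ → ℝ), k ≤ N ∧
      z = ∑ i ∈ Finset.range N, t i • x i := by
    rw [Finsupp.mem_span_range_iff_exists_finsupp] at hzspan
    obtain ⟨c, rfl⟩ := hzspan
    obtain ⟨N₀, hN₀⟩ := c.support.exists_nat_subset_range
    refine ⟨max k N₀, c, le_max_left _ _, ?_⟩
    apply Finsupp.sum_of_support_subset _ _ _ (by simp)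
    exact hN₀.trans (Finset.range_subset_range.2 (le_max_right _ _))
  have hSz : ∀ j < N, S j (∑ i ∈ Finset.range N, t i • x i) = ∑ i ∈ Finset.range (j + 1), t i := by
    intro j hj
    rw [map_sum]
    simp only [map_smul, smul_eq_mul, hS1]
    exact hsplit N t j hj
  have hsum : ∀ m ≤ N, ∑ j ∈ Finset.range m,
      S j (∑ i ∈ Finset.range N, t i • x i) • (x (j + 1) - x j) =
      (∑ i ∈ Finset.range m, t i) • x m - ∑ i ∈ Finset.range m, t i • x i := by
    intro m
    induction m with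
    | zero => intro _; simp
    | succ m ih =>
      intro hm
      rw [Finset.sum_range_succ, ih (by omega), hSz m (by omega), Finset.sum_range_succ _ m,
        Finset.sum_range_succ _ m]
      simp only [add_smul, smul_sub]
      abel
  rw [hsum k hkN]
  calc _ ≤ ‖(∑ i ∈ Finset.range k, t i) • x k‖ + ‖∑ i ∈ Finset.range k, t i • x i‖ :=
        norm_sub_le _ _
    _ ≤ 4 / δ * ‖∑ i ∈ Finset.range N, t i • x i‖ * M +
        (4 + 4 / δ * ‖ψ‖) * ‖∑ i ∈ Finset.range N, t i • x i‖ := by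
        apply add_le_add _ (hhead N t k hkN)
        rw [norm_smul, Real.norm_eq_abs]
        exact mul_le_mul (hinit N t k hkN) (hM _ (hxC k)) (norm_nonneg _) (by positivity)
    _ = _ := by ring

/-- **Main theorem.** Let `X` be any (real) Banach space and let `C` be a nonempty, bounded, closed,
convex subset of `X` which is not weakly compact. Then `C` contains a nonempty, bounded, closed,
convex set `K` and there is a continuous linear operator `T` on `X` mapping `K` into `K`
(so `T` restricts to an affine self-map of `K`) such that all iterates of `T` are Lipschitz on `K`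
with a common constant, and `T` has no fixed point in `K`. -/
theorem result (X : Type*) [NormedAddCommGroup X] [NormedSpace ℝ X] [CompleteSpace X]
    (C : Set X) (hne : C.Nonempty) (hbd : Bornology.IsBounded C) (hcl : IsClosed C)
    (hcv : Convex ℝ C) (hC : ¬ IsCompact (toWeakSpace ℝ X '' C)) :
    ∃ K : Set X, K ⊆ C ∧ K.Nonempty ∧ Bornology.IsBounded K ∧ IsClosed K ∧ Convex ℝ K ∧
      ∃ T : X →L[ℝ] X, Set.MapsTo T K K ∧
        (∃ L : ℝ, 0 < L ∧ ∀ p : ℕ, ∀ x ∈ K, ∀ y ∈ K, ‖T^[p] x - T^[p] y‖ ≤ L * ‖x - y‖) ∧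
        ∀ x ∈ K, T x ≠ x := by
  obtain ⟨x, S, M, B, D, hxC, hB, hM, hS, hD, hA⟩ := exists_wide_seq hne hbd hcl hcv hC
  obtain ⟨T, hT1, hT2, hT3⟩ := core hM hS hD hA
  have hsub : closure (convexHull ℝ (Set.range x)) ⊆ C := by
    apply closure_minimal _ hcl
    apply convexHull_min _ hcv
    rintro _ ⟨n, rfl⟩
    exact hxC n
  refine ⟨closure (convexHull ℝ (Set.range x)), hsub, ?_, hbd.subset hsub, isClosed_closure,
    (convex_convexHull ℝ _).closure, T, hT1, ⟨1 + B, by positivity, hT2⟩, hT3⟩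
  exact ⟨x 0, subset_closure (subset_convexHull ℝ _ (Set.mem_range_self 0))⟩

end Pool.Agent.Results.MP_f650bf_an.UniformlyLipschitzAffine
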